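import Mathlib
import Pool.Agent.Results.MP_be4568_nt.FixedSignFails

/-!
# Products of two Selberg-class error terms that are positive off small sets

The starting file `FixedSignFails` proves that Q1 is false.  Here the result is stated in its
quantitative form: there are two entire elements of the Selberg class with real coefficients and
integer degrees `2 ≤ d₁ < d₂` such that for arbitrarily large `T` the product of the two error
terms is positive on `[T, 2T]` off a set of measure at most `ε T`.  So even the following very weak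
form of the negative half of `(A_δ)` fails, for every real `δ`: for all large `T` the interval
`[T, 2T]` contains at least `T^(1-δ)` disjoint intervals of length at least `C T^δ` on which the
product is nonpositive.
-/

set_option autoImplicit false
set_option linter.all false

open MeasureTheory

namespace Pool.Agent.Results.MP_be4568_nt.PositiveOffSmallSets

open Pool.Agent.H13R3.EM (Sel)
open Pool.Agent.Results.MP_be4568_nt.FixedSignFails

/-- A weak form of the negative half of `(A_δ)`: there are `C > 0` and `T₀` such that for all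
`T ≥ T₀` the interval `[T, 2T]` contains at least `T^(1-δ)` pairwise disjoint open subintervals,
each of length at least `C T^δ`, on which `P` is nonpositive. -/
def NonposIntervals (δ : ℝ) (P : ℝ → ℝ) : Prop := ∃ C T₀ : ℝ, 0 < C ∧
  ∀ T : ℝ, T₀ ≤ T → ∃ (N : ℕ) (u v : Fin N → ℝ),
    T ^ (1 - δ) ≤ N ∧ (∀ i, T ≤ u i ∧ v i ≤ 2 * T ∧ C * T ^ δ ≤ v i - u i) ∧
    (∀ i j, i ≠ j → Disjoint (Set.Ioo (u i) (v i)) (Set.Ioo (u j) (v j))) ∧
    ∀ i, ∀ x ∈ Set.Ioo (u i) (v i), P x ≤ 0

/-- For every `ε > 0` there are arbitrarily large `T` such that `P` is positive on `[T, 2T]`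
outside a set of measure at most `ε T`. -/
def PositiveOffSmall (P : ℝ → ℝ) : Prop :=
  ∀ ε T₀ : ℝ, 0 < ε → ∃ T : ℝ, T₀ ≤ T ∧ 0 < T ∧
    volume {x : ℝ | T ≤ x ∧ x ≤ 2 * T ∧ P x ≤ 0} ≤ ENNReal.ofReal (ε * T)

/-- The product of the real parts of two error terms. -/
noncomputable def prodErr (F₁ F₂ : Sel) (x : ℝ) : ℝ := (F₁.err x).re * (F₂.err x).re

/-- `F` is entire, its coefficients are real, and its error term is real valued. -/
def EntireReal (F : Sel) : Prop :=
  F.m0 = 0 ∧ (∀ n : ℕ, 1 ≤ n → (F.a n).im = 0) ∧ ∀ x : ℝ, (F.err x).im = 0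

theorem not_nonpos {P : ℝ → ℝ} (hP : PositiveOffSmall P) (δ : ℝ) :
    ¬ NonposIntervals δ P := by
  rintro ⟨C, T₀, hC, h⟩
  obtain ⟨T, hT, hTpos, hvol⟩ := hP (C / 2) T₀ (by linarith)
  obtain ⟨N, u, v, hN, huv, hdisj, hneg⟩ := h T hT
  have hsub : (⋃ i, Set.Ioo (u i) (v i)) ⊆ {x : ℝ | T ≤ x ∧ x ≤ 2 * T ∧ P x ≤ 0} := by
    intro x hx
    obtain ⟨i, hi⟩ := Set.mem_iUnion.1 hx
    have h1 := huv i
    have h2 := hneg i x hi
    exact ⟨by linarith [hi.1, h1.1], by linarith [hi.2, h1.2.1], h2⟩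
  have hle := (measure_mono hsub).trans hvol
  rw [measure_iUnion (fun i j hij => hdisj i j hij) (fun i => measurableSet_Ioo),
    tsum_fintype] at hle
  simp only [Real.volume_Ioo] at hle
  have hpos : ∀ i, 0 ≤ v i - u i := by
    intro i
    have h1 := (huv i).2.2
    have h2 : 0 < C * T ^ δ := mul_pos hC (Real.rpow_pos_of_pos hTpos _)
    linarith
  rw [← ENNReal.ofReal_sum_of_nonneg (fun i _ => hpos i)] at hle
  have hle2 : ∑ i, (v i - u i) ≤ C / 2 * T := by
    rwa [ENNReal.ofReal_le_ofReal_iff (by positivity)] at hle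
  have hge : (N : ℝ) * (C * T ^ δ) ≤ ∑ i, (v i - u i) := by
    calc (N : ℝ) * (C * T ^ δ) = ∑ _i : Fin N, (C * T ^ δ) := by simp
      _ ≤ ∑ i, (v i - u i) := Finset.sum_le_sum fun i _ => (huv i).2.2
  have h4 : T ^ (1 - δ) * (C * T ^ δ) ≤ (N : ℝ) * (C * T ^ δ) := by
    apply mul_le_mul_of_nonneg_right hN
    positivity
  have h5 : T ^ (1 - δ) * (C * T ^ δ) = C * T := by
    rw [mul_comm C, ← mul_assoc, ← Real.rpow_add hTpos, sub_add_cancel, Real.rpow_one, mul_comm]
  nlinarith [mul_pos hC hTpos]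

/-- `(A_δ)` for any exponent `σ` implies the weak form of its negative half. -/
theorem PropA.nonposIntervals {δ σ : ℝ} {P : ℝ → ℝ} (h : PropA δ σ P) : NonposIntervals δ P := by
  obtain ⟨c, C, T₀, hc, hC, hT₀, h⟩ := h
  refine ⟨C, T₀, hC, fun T hT => ?_⟩
  have hTpos : 0 < T := lt_of_lt_of_le hT₀ hT
  obtain ⟨N, u, v, hN, huv, hdisj, hneg⟩ := h T hT (-1) (Or.inr rfl)
  refine ⟨N, u, v, hN, huv, hdisj, fun i x hx => ?_⟩
  have h2 := hneg i x hx
  have h3 : 0 < c * T ^ σ := mul_pos hc (Real.rpow_pos_of_pos hTpos _)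
  linarith

/-- There are entire elements `F₁`, `F₂` of the Selberg class with real coefficients and integer
degrees `2 ≤ d₁ < d₂` such that for every `ε > 0` there are arbitrarily large `T` for which the
product of the two (real) error terms is positive on `[T, 2T]` outside a set of measure at most
`ε T`.  For this product the weak form `NonposIntervals δ` of the negative half of `(A_δ)` fails
for all real `δ`, and `(A_δ)` with any real exponent `σ` fails for all real `δ`.  In particular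
Q1 is false. -/
theorem result : (∃ (F₁ F₂ : Sel) (d₁ d₂ : ℕ), 2 ≤ d₁ ∧ d₁ < d₂ ∧ F₁.deg = (d₁ : ℝ) ∧
    F₂.deg = (d₂ : ℝ) ∧ EntireReal F₁ ∧ EntireReal F₂ ∧ PositiveOffSmall (prodErr F₁ F₂) ∧
    (∀ δ : ℝ, ¬ NonposIntervals δ (prodErr F₁ F₂)) ∧
    ∀ δ σ : ℝ, ¬ PropA δ σ (prodErr F₁ F₂)) ∧ ¬ Q1 := by
  refine ⟨?_, FixedSignFails.result⟩
  obtain ⟨F₁, F₂, d₁, d₂, a₁, a₂, hd1, hd2, hF1, hF2, hm1, hm2, ha1, ha2, he1, he2, hmain⟩ :=
    strong
  have hP : prodErr F₁ F₂ =
      fun x => Pool.Agent.H394R3.ET.AS a₁ x * Pool.Agent.H394R3.ET.AS a₂ x := by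
    funext x
    unfold prodErr
    rw [he1, he2, Complex.ofReal_re, Complex.ofReal_re]
  have hset : PositiveOffSmall (prodErr F₁ F₂) := by
    rw [hP]
    exact hmain
  refine ⟨F₁, F₂, d₁, d₂, hd1, hd2, hF1, hF2, ⟨hm1, ?_, ?_⟩, ⟨hm2, ?_, ?_⟩, hset, ?_, ?_⟩
  · intro n hn
    rw [ha1 n hn]
    exact Complex.ofReal_im _
  · intro x
    rw [he1]
    exact Complex.ofReal_im _
  · intro n hn
    rw [ha2 n hn]
    exact Complex.ofReal_im _
  · intro x
    rw [he2]
    exact Complex.ofReal_im _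
  · intro δ
    exact not_nonpos hset δ
  · intro δ σ h
    exact not_nonpos hset δ (PropA.nonposIntervals h)

end Pool.Agent.Results.MP_be4568_nt.PositiveOffSmallSets
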